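import Mathlib

/-!
# Finitely generated kernels of homomorphisms from amalgamated products
-/

set_option autoImplicit false

namespace Pool.Agent.V7H90.HK

variable {A B C : Type} [Group A] [Group B] [Group C]

/-- the relations `i (c) = j (c)` -/
def rel (i : C →* A) (j : C →* B) : Subgroup (Monoid.Coprod A B) :=
  Subgroup.normalClosure (Set.range fun c => Monoid.Coprod.inl (i c) * (Monoid.Coprod.inr (j c))⁻¹)

instance (i : C →* A) (j : C →* B) : (rel i j).Normal := Subgroup.normalClosure_normal

/-- the amalgamated product of `A` and `B` along `i : C → A`, `j : C → B` -/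
abbrev Amalgam (i : C →* A) (j : C →* B) : Type := Monoid.Coprod A B ⧸ rel i j

variable (i : C →* A) (j : C →* B)

/-- the map from `A` to the amalgamated product -/
def left : A →* Amalgam i j := (QuotientGroup.mk' (rel i j)).comp Monoid.Coprod.inl

/-- the map from `B` to the amalgamated product -/
def right : B →* Amalgam i j := (QuotientGroup.mk' (rel i j)).comp Monoid.Coprod.inr

/-- the map from `C` to the amalgamated product -/
def mid : C →* Amalgam i j := (left i j).comp i

theorem mid_eq (c : C) : mid i j c = right i j (j c) := by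
  change (QuotientGroup.mk' (rel i j)) _ = (QuotientGroup.mk' (rel i j)) _
  rw [← mul_inv_eq_one, ← map_inv, ← map_mul]
  exact (QuotientGroup.eq_one_iff _).2 (Subgroup.subset_normalClosure ⟨c, rfl⟩)

/-- the value of a word -/
def val (l : List (A × B)) : Amalgam i j := (l.map fun p => left i j p.1 * right i j p.2).prod

theorem val_cons (p : A × B) (l : List (A × B)) :
    val i j (p :: l) = left i j p.1 * right i j p.2 * val i j l := by
  simp [val]

theorem val_nil : val i j [] = 1 := rfl

theorem val_append (l l' : List (A × B)) : val i j (l ++ l') = val i j l * val i j l' := by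
  simp [val]

theorem exists_val (g : Amalgam i j) : ∃ l, val i j l = g := by
  obtain ⟨g, rfl⟩ := QuotientGroup.mk'_surjective _ g
  induction g using Monoid.Coprod.induction_on with
  | inl a => exact ⟨[(a, 1)], by simp [val, left]⟩
  | inr b => exact ⟨[(1, b)], by simp [val, right]⟩
  | mul x y hx hy =>
    obtain ⟨l, hl⟩ := hx
    obtain ⟨l', hl'⟩ := hy
    exact ⟨l ++ l', by rw [val_append, hl, hl', map_mul]⟩

section chains

variable {G X : Type} [Group G] [MulAction G X]

/-- translation of chains -/
noncomputable def tr (g : G) (m : X →₀ ℤ) : X →₀ ℤ := m.mapDomain (g • ·)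

theorem tr_add (g : G) (m m' : X →₀ ℤ) : tr g (m + m') = tr g m + tr g m' :=
  Finsupp.mapDomain_add

theorem tr_zero (g : G) : tr g (0 : X →₀ ℤ) = 0 := Finsupp.mapDomain_zero

theorem tr_sub (g : G) (m m' : X →₀ ℤ) : tr g (m - m') = tr g m - tr g m' := by
  rw [eq_sub_iff_add_eq, ← tr_add, sub_add_cancel]

theorem tr_single (g : G) (x : X) : tr g (Finsupp.single x 1) = Finsupp.single (g • x) 1 :=
  Finsupp.mapDomain_single

theorem tr_one (m : X →₀ ℤ) : tr (1 : G) m = m := by
  have : ((1 : G) • · : X → X) = id := by ext x; simp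
  rw [tr, this, Finsupp.mapDomain_id]

theorem tr_mul (g h : G) (m : X →₀ ℤ) : tr (g * h) m = tr g (tr h m) := by
  rw [tr, tr, tr, ← Finsupp.mapDomain_comp]
  congr 1
  ext x
  exact mul_smul g h x

theorem tr_apply (g : G) (m : X →₀ ℤ) (x : X) : tr g m (g • x) = m x :=
  Finsupp.mapDomain_apply (MulAction.injective g) m x

/-- translation of chains as a permutation -/
noncomputable def T : G →* Equiv.Perm (X →₀ ℤ) where
  toFun g := ⟨tr g, tr g⁻¹, fun m => by rw [← tr_mul, inv_mul_cancel, tr_one],
    fun m => by rw [← tr_mul, mul_inv_cancel, tr_one]⟩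
  map_one' := Equiv.ext tr_one
  map_mul' g h := Equiv.ext (tr_mul g h)

end chains

variable (X : Type) [MulAction (Amalgam i j) X] (x₀ : X)

/-- the action on chains by affine maps -/
noncomputable def Psi0 : Monoid.Coprod A B →* Equiv.Perm (X →₀ ℤ) :=
  Monoid.Coprod.lift (T.comp (left i j))
    ((MulAut.conj (Equiv.addRight (Finsupp.single x₀ (1 : ℤ)))).toMonoidHom.comp
      (T.comp (right i j)))

theorem Psi0_rel (h : ∀ c, mid i j c • x₀ = x₀) : rel i j ≤ (Psi0 i j X x₀).ker := by
  refine Subgroup.normalClosure_le_normal ?_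
  rintro _ ⟨c, rfl⟩
  rw [SetLike.mem_coe, MonoidHom.mem_ker, map_mul, map_inv, mul_inv_eq_one]
  simp only [Psi0, Monoid.Coprod.lift_apply_inl, Monoid.Coprod.lift_apply_inr,
    MonoidHom.comp_apply]
  have e1 : left i j (i c) = mid i j c := rfl
  have e2 : right i j (j c) = mid i j c := (mid_eq i j c).symm
  rw [e1, e2]
  ext1 m
  change tr (mid i j c) m = (Equiv.addRight (Finsupp.single x₀ (1 : ℤ)))
    (tr (mid i j c) ((Equiv.addRight (Finsupp.single x₀ (1 : ℤ))).symm m))
  simp only [Equiv.coe_addRight, Equiv.addRight_symm]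
  rw [← sub_eq_add_neg, tr_sub, tr_single, h c, sub_add_cancel]

/-- the action on chains by affine maps -/
noncomputable def Psi (h : ∀ c, mid i j c • x₀ = x₀) : Amalgam i j →* Equiv.Perm (X →₀ ℤ) :=
  QuotientGroup.lift (rel i j) (Psi0 i j X x₀) (Psi0_rel i j X x₀ h)

variable {X x₀}

theorem Psi_left (h : ∀ c, mid i j c • x₀ = x₀) (a : A) (m : X →₀ ℤ) :
    Psi i j X x₀ h (left i j a) m = tr (left i j a) m := by
  change (QuotientGroup.lift (rel i j) (Psi0 i j X x₀) _) (QuotientGroup.mk _) m = _
  rw [QuotientGroup.lift_mk]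
  simp only [Psi0, Monoid.Coprod.lift_apply_inl]
  rfl

theorem Psi_right (h : ∀ c, mid i j c • x₀ = x₀) (b : B) (m : X →₀ ℤ) :
    Psi i j X x₀ h (right i j b) m =
      tr (right i j b) (m - Finsupp.single x₀ 1) + Finsupp.single x₀ 1 := by
  change (QuotientGroup.lift (rel i j) (Psi0 i j X x₀) _) (QuotientGroup.mk _) m = _
  rw [QuotientGroup.lift_mk]
  simp only [Psi0, Monoid.Coprod.lift_apply_inr]
  change (Equiv.addRight (Finsupp.single x₀ (1 : ℤ)))
    (tr (right i j b) ((Equiv.addRight (Finsupp.single x₀ (1 : ℤ))).symm m)) = _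
  simp only [Equiv.coe_addRight, Equiv.addRight_symm]
  rw [← sub_eq_add_neg]

/-- the chain of an element: the path from the base vertex to its translate -/
noncomputable def ch (h : ∀ c, mid i j c • x₀ = x₀) (g : Amalgam i j) : X →₀ ℤ :=
  Psi i j X x₀ h g 0

theorem Psi_eq (h : ∀ c, mid i j c • x₀ = x₀) (g : Amalgam i j) (m : X →₀ ℤ) :
    Psi i j X x₀ h g m = tr g m + ch i j h g := by
  obtain ⟨l, rfl⟩ := exists_val i j g
  have key : ∀ g g' : Amalgam i j, (∀ m, Psi i j X x₀ h g m = tr g m + ch i j h g) →
      (∀ m, Psi i j X x₀ h g' m = tr g' m + ch i j h g') →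
      ∀ m, Psi i j X x₀ h (g * g') m = tr (g * g') m + ch i j h (g * g') := by
    intro g g' hg hg' m
    have e1 : ∀ m, Psi i j X x₀ h (g * g') m = tr g (tr g' m) + tr g (ch i j h g') +
        ch i j h g := by
      intro m
      rw [map_mul, Equiv.Perm.mul_apply, hg, hg', tr_add]
    have e2 : ch i j h (g * g') = tr g (ch i j h g') + ch i j h g := by
      have := e1 0
      rw [tr_zero, tr_zero, zero_add] at this
      exact this
    rw [e1, e2, tr_mul, add_assoc]
  induction l generalizing m with
  | nil =>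
    rw [val_nil, tr_one, ch, map_one]
    simp
  | cons p l ih =>
    rw [val_cons]
    refine key _ _ (key _ _ (fun m => ?_) fun m => ?_) (fun m => ih m) m
    · rw [Psi_left, ch, Psi_left, tr_zero, add_zero]
    · rw [Psi_right, ch, Psi_right, zero_sub, tr_sub, add_comm]
      have : tr (right i j p.2) (-Finsupp.single x₀ 1 : X →₀ ℤ) =
          - tr (right i j p.2) (Finsupp.single x₀ 1) := by
        rw [← zero_sub, tr_sub, tr_zero, zero_sub]
      rw [this]
      abel

theorem ch_mul (h : ∀ c, mid i j c • x₀ = x₀) (g g' : Amalgam i j) :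
    ch i j h (g * g') = tr g (ch i j h g') + ch i j h g := by
  rw [ch, map_mul, Equiv.Perm.mul_apply, Psi_eq]
  rfl

theorem ch_one (h : ∀ c, mid i j c • x₀ = x₀) : ch i j h 1 = 0 := by
  rw [ch, map_one]
  rfl

theorem ch_left (h : ∀ c, mid i j c • x₀ = x₀) (a : A) : ch i j h (left i j a) = 0 := by
  rw [ch, Psi_left, tr_zero]

theorem ch_right (h : ∀ c, mid i j c • x₀ = x₀) (b : B) : ch i j h (right i j b) =
    Finsupp.single x₀ 1 - Finsupp.single (right i j b • x₀) 1 := by
  rw [ch, Psi_right, zero_sub]
  have : tr (right i j b) (-Finsupp.single x₀ 1 : X →₀ ℤ) =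
      - tr (right i j b) (Finsupp.single x₀ 1) := by
    rw [← zero_sub, tr_sub, tr_zero, zero_sub]
  rw [this, tr_single]
  abel

/-- the chain of a word after the translation by `g` -/
theorem ch_val_cons (h : ∀ c, mid i j c • x₀ = x₀) (g : Amalgam i j) (p : A × B)
    (l : List (A × B)) : tr g (ch i j h (val i j (p :: l))) =
      Finsupp.single ((g * left i j p.1) • x₀) 1 -
        Finsupp.single ((g * val i j [p]) • x₀) 1 +
        tr (g * val i j [p]) (ch i j h (val i j l)) := by
  rw [val_cons, ch_mul, ch_mul, ch_left, add_zero, ch_right, tr_add, tr_sub, tr_single,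
    tr_single, tr_sub, tr_single, tr_single, ← tr_mul]
  have e : val i j [p] = left i j p.1 * right i j p.2 := by rw [val_cons, val_nil, mul_one]
  rw [e, smul_smul, smul_smul, smul_smul, mul_assoc]
  abel

theorem nonneg (h : ∀ c, mid i j c • x₀ = x₀) (y : X) (l : List (A × B)) :
    ∀ g : Amalgam i j, (∀ t s, l = t ++ s → t ≠ [] → (g * val i j t) • x₀ ≠ y) →
      0 ≤ tr g (ch i j h (val i j l)) y := by
  classical
  induction l with
  | nil =>
    intro g _
    rw [val_nil, ch_one, tr_zero]
    simp
  | cons p l ih =>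
    intro g hg
    rw [ch_val_cons]
    have h1 : (g * val i j [p]) • x₀ ≠ y := hg [p] l rfl (by simp)
    have h2 : 0 ≤ tr (g * val i j [p]) (ch i j h (val i j l)) y := by
      refine ih _ fun t s hts ht => ?_
      have := hg (p :: t) s (by rw [hts]; rfl) (by simp)
      have e : val i j (p :: t) = val i j [p] * val i j t := by
        rw [← val_append]; rfl
      rw [mul_assoc, ← e]
      exact this
    have h3 : (0 : ℤ) ≤ Finsupp.single ((g * left i j p.1) • x₀) (1 : ℤ) y := by
      rw [Finsupp.single_apply]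
      split_ifs <;> norm_num
    rw [Finsupp.add_apply, Finsupp.sub_apply, Finsupp.single_eq_of_ne' h1]
    linarith

theorem pos (h : ∀ c, mid i j c • x₀ = x₀) (p : A × B) (l : List (A × B))
    (hg : ∀ t s, p :: l = t ++ s → t ≠ [] → val i j t • x₀ ≠ left i j p.1 • x₀) :
    0 < ch i j h (val i j (p :: l)) (left i j p.1 • x₀) := by
  classical
  have e0 := ch_val_cons i j h 1 p l
  rw [tr_one, one_mul, one_mul] at e0
  rw [e0]
  have h1 : val i j [p] • x₀ ≠ left i j p.1 • x₀ := hg [p] l rfl (by simp)
  have h2 : 0 ≤ tr (val i j [p]) (ch i j h (val i j l)) (left i j p.1 • x₀) := by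
    refine nonneg i j h _ l _ fun t s hts ht => ?_
    have := hg (p :: t) s (by rw [hts]; rfl) (by simp)
    have e : val i j (p :: t) = val i j [p] * val i j t := by
      rw [← val_append]; rfl
    rw [← e]
    exact this
  rw [Finsupp.add_apply, Finsupp.sub_apply, Finsupp.single_eq_same,
    Finsupp.single_eq_of_ne' h1]
  linarith

end Pool.Agent.V7H90.HK
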