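import Pool.Agent.V7H90.HK.Core

/-!
# Nontrivial normal subgroups of amalgamated products which meet the factors trivially
-/

set_option autoImplicit false

namespace Pool.Agent.V7H90.HK

variable {A B C : Type} [Group A] [Group B] [Group C] (i : C →* A) (j : C →* B)

section

variable (K : Subgroup (Amalgam i j)) [K.Normal]

/-- the edges of the quotient graph -/
abbrev XX : Type := Amalgam i j ⧸ (K ⊔ (mid i j).range)

/-- the base edge -/
abbrev x0 : XX i j K := ((1 : Amalgam i j) : XX i j K)

theorem smul_x0 (g : Amalgam i j) : g • x0 i j K = ((g : Amalgam i j) : XX i j K) := by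
  change ((g * 1 : Amalgam i j) : XX i j K) = _
  rw [mul_one]

theorem mid_x0 (c : C) : mid i j c • x0 i j K = x0 i j K := by
  rw [smul_x0, QuotientGroup.eq, mul_one]
  exact inv_mem (Subgroup.mem_sup_right ⟨c, rfl⟩)

theorem K_triv {k : Amalgam i j} (hk : k ∈ K) (x : XX i j K) : k • x = x := by
  obtain ⟨g, rfl⟩ := QuotientGroup.mk_surjective x
  change ((k * g : Amalgam i j) : XX i j K) = _
  rw [QuotientGroup.eq]
  refine Subgroup.mem_sup_left ?_
  have h := ‹K.Normal›.conj_mem k⁻¹ (inv_mem hk) g⁻¹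
  have e : (k * g)⁻¹ * g = g⁻¹ * k⁻¹ * g⁻¹⁻¹ := by group
  rw [e]
  exact h

theorem tr_K {k : Amalgam i j} (hk : k ∈ K) (m : XX i j K →₀ ℤ) : tr k m = m := by
  have : (k • · : XX i j K → XX i j K) = id := by
    ext x
    exact K_triv i j K hk x
  rw [tr, this, Finsupp.mapDomain_id]

theorem stab {g : Amalgam i j} (hg : g • x0 i j K = x0 i j K) :
    ∃ k ∈ K, ∃ c, g = k * mid i j c := by
  rw [smul_x0, QuotientGroup.eq, mul_one] at hg
  have h1 : g ∈ K ⊔ (mid i j).range := by simpa using inv_mem hg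
  rw [← SetLike.mem_coe, Subgroup.normal_mul, Set.mem_mul] at h1
  obtain ⟨k, hk, _, ⟨c, rfl⟩, h2⟩ := h1
  exact ⟨k, hk, c, h2.symm⟩

/-- the chain of a nontrivial element of minimal length is not zero -/
theorem exists_pos (hA : ∀ a, left i j a ∈ K → a = 1) (hB : ∀ b, right i j b ∈ K → b = 1)
    (hK : K ≠ ⊥) : ∃ n ∈ K, ∃ x : XX i j K, 0 < ch i j (mid_x0 i j K) n x := by
  classical
  have hex : ∃ m : ℕ, ∃ l : List (A × B), l.length = m ∧ val i j l ∈ K ∧ val i j l ≠ 1 := by
    obtain ⟨n, hn1⟩ := Subgroup.ne_bot_iff_exists_ne_one.1 hK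
    obtain ⟨l, hl⟩ := exists_val i j (n : Amalgam i j)
    exact ⟨l.length, l, rfl, by rw [hl]; exact n.2, by
      rw [hl]
      exact fun h' => hn1 (Subtype.ext h')⟩
  obtain ⟨l, hlen, hlK, hl1⟩ := Nat.find_spec hex
  have hmin : ∀ l' : List (A × B), l'.length < l.length → val i j l' ∈ K → val i j l' = 1 := by
    intro l' hl' hK'
    by_contra hcon
    exact Nat.find_min hex (m := l'.length) (by omega) ⟨l', rfl, hK', hcon⟩
  rcases l with _ | ⟨p, l⟩
  · exact absurd (val_nil i j) hl1
  refine ⟨_, hlK, left i j p.1 • x0 i j K, pos i j (mid_x0 i j K) p l fun t s hts ht hcon => ?_⟩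
  rcases t with _ | ⟨p', t⟩
  · exact ht rfl
  rw [List.cons_append, List.cons.injEq] at hts
  obtain ⟨rfl, rfl⟩ := hts
  -- the element `right b * val t` is in `K * C`
  have h1 : (right i j p.2 * val i j t) • x0 i j K = x0 i j K := by
    have e : val i j (p :: t) = left i j p.1 * (right i j p.2 * val i j t) := by
      rw [val_cons, mul_assoc]
    rw [e, mul_smul] at hcon
    exact (MulAction.injective _ hcon)
  obtain ⟨k, hk, c, hc⟩ := stab i j K h1
  have h2 : right i j p.2 * val i j t = mid i j c := by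
    rcases List.eq_nil_or_concat t with rfl | ⟨t', q, rfl⟩
    · rw [val_nil, mul_one] at hc ⊢
      have h3 : right i j (p.2 * (j c)⁻¹) ∈ K := by
        rw [map_mul, map_inv, ← mid_eq, hc]
        simpa using hk
      have h4 := hB _ h3
      rw [mul_inv_eq_one] at h4
      rw [h4, mid_eq]
    · have h3 : (right i j p.2)⁻¹ * k * right i j p.2 = val i j (t' ++ [(q.1, q.2 * (j c)⁻¹ * p.2)]) := by
        have e1 : k = right i j p.2 * val i j (t'.concat q) * (mid i j c)⁻¹ := by
          rw [hc]; group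
        rw [e1, List.concat_eq_append, val_append, val_append, val_cons, val_cons, val_nil, mid_eq]
        simp only [map_mul, map_inv]
        group
      have h4 : val i j (t' ++ [(q.1, q.2 * (j c)⁻¹ * p.2)]) ∈ K := by
        rw [← h3]
        have := ‹K.Normal›.conj_mem k hk (right i j p.2)⁻¹
        rwa [inv_inv] at this
      have h5 := hmin _ (by simp) h4
      rw [h5] at h3
      have h6 : k = 1 := by
        have : k = right i j p.2 * ((right i j p.2)⁻¹ * k * right i j p.2) * (right i j p.2)⁻¹ := by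
          group
        rw [this, h3]
        group
      rw [hc, h6, one_mul]
  have h3 : val i j (p :: (t ++ s)) = left i j (p.1 * i c) * val i j s := by
    rw [val_cons, val_append, map_mul]
    change _ = left i j p.1 * mid i j c * val i j s
    rw [← h2]
    group
  rcases s with _ | ⟨q, s⟩
  · rw [val_nil, mul_one] at h3
    rw [h3] at hlK hl1
    rw [hA _ hlK, map_one] at hl1
    exact hl1 rfl
  · have h4 : left i j (p.1 * i c) * val i j (q :: s) = val i j ((p.1 * i c * q.1, q.2) :: s) := by
      rw [val_cons, val_cons, map_mul _ (p.1 * i c)]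
      group
    rw [h3, h4] at hlK hl1
    exact hl1 (hmin _ (by simp) hlK)

theorem ch_K {n g : Amalgam i j} (hn : n ∈ K) :
    ch i j (mid_x0 i j K) (g * n * g⁻¹) = tr g (ch i j (mid_x0 i j K) n) := by
  have h1 : g * n * g⁻¹ ∈ K := ‹K.Normal›.conj_mem n hn g
  have e1 := ch_mul i j (mid_x0 i j K) (g * n * g⁻¹) g
  have e2 := ch_mul i j (mid_x0 i j K) g n
  have e3 : g * n * g⁻¹ * g = g * n := by group
  rw [e3, e2, tr_K i j K h1, add_comm (ch i j (mid_x0 i j K) g)] at e1
  exact (add_right_cancel e1).symm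

/-- the chains of the elements of `K` -/
noncomputable def chK : K →* Multiplicative (XX i j K →₀ ℤ) where
  toFun k := Multiplicative.ofAdd (ch i j (mid_x0 i j K) k)
  map_one' := by
    change Multiplicative.ofAdd (ch i j (mid_x0 i j K) 1) = _
    rw [ch_one]
    rfl
  map_mul' k k' := by
    change Multiplicative.ofAdd (ch i j (mid_x0 i j K) (k * k')) = _
    rw [ch_mul, tr_K i j K k.2, add_comm]
    rfl

theorem support_of_fg (hfg : Group.FG (Abelianization K)) :
    ∃ F : Finset (XX i j K), ∀ k ∈ K, (ch i j (mid_x0 i j K) k).support ⊆ F := by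
  classical
  obtain ⟨S, hS⟩ := Group.fg_iff'.1 hfg |>.imp fun n h => h
  obtain ⟨S, -, hS⟩ := hS
  let f : Abelianization K →* Multiplicative (XX i j K →₀ ℤ) := Abelianization.lift (chK i j K)
  let F : Finset (XX i j K) := S.biUnion fun s => (Multiplicative.toAdd (f s)).support
  let D : Subgroup (Abelianization K) :=
    { carrier := {s | (Multiplicative.toAdd (f s)).support ⊆ F}
      one_mem' := by simp
      mul_mem' := by
        intro a b ha hb
        rw [Set.mem_ofPred_eq, map_mul, toAdd_mul]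
        exact Finsupp.support_add.trans (Finset.union_subset ha hb)
      inv_mem' := by
        intro a ha
        rw [Set.mem_ofPred_eq, map_inv, toAdd_inv, Finsupp.support_neg]
        exact ha }
  have hD : D = ⊤ := by
    rw [eq_top_iff, ← hS, Subgroup.closure_le]
    intro s hs
    exact Finset.subset_biUnion_of_mem (fun s => (Multiplicative.toAdd (f s)).support) hs
  refine ⟨F, fun k hk => ?_⟩
  have h1 : Abelianization.of (⟨k, hk⟩ : K) ∈ D := by rw [hD]; trivial
  have h2 : f (Abelianization.of (⟨k, hk⟩ : K)) = chK i j K ⟨k, hk⟩ := Abelianization.lift_apply_of _ _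
  have h3 : (Multiplicative.toAdd (f (Abelianization.of (⟨k, hk⟩ : K)))).support ⊆ F := h1
  rw [h2] at h3
  exact h3

/-- **The core theorem.** -/
theorem core (hA : ∀ a, left i j a ∈ K → a = 1) (hB : ∀ b, right i j b ∈ K → b = 1)
    (hK : K ≠ ⊥) (hfg : Group.FG (Abelianization K)) :
    Finite (Amalgam i j ⧸ (K ⊔ (mid i j).range)) := by
  classical
  obtain ⟨n, hn, x, hx⟩ := exists_pos i j K hA hB hK
  obtain ⟨F, hF⟩ := support_of_fg i j K hfg
  obtain ⟨y, rfl⟩ := QuotientGroup.mk_surjective x
  have hall : ∀ z : XX i j K, z ∈ F := by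
    intro z
    obtain ⟨w, rfl⟩ := QuotientGroup.mk_surjective z
    have h1 : ((w : Amalgam i j) : XX i j K) = (w * y⁻¹) • ((y : Amalgam i j) : XX i j K) := by
      change _ = ((w * y⁻¹ * y : Amalgam i j) : XX i j K)
      rw [inv_mul_cancel_right]
    refine hF _ (‹K.Normal›.conj_mem n hn (w * y⁻¹)) ?_
    rw [Finsupp.mem_support_iff, ch_K i j K hn, h1, tr_apply]
    exact hx.ne'
  exact @Fintype.finite _ ⟨F, hall⟩

end

/-- the theorem for kernels -/
theorem kernel {Q : Type} [Group Q] (ρ : Amalgam i j →* Q) (hρ : Function.Surjective ρ)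
    (hA : Function.Injective (ρ.comp (left i j))) (hB : Function.Injective (ρ.comp (right i j)))
    (hC : (ρ.comp (mid i j)).range.index = 0) (K : Subgroup (Amalgam i j)) (hN : K.Normal)
    (hK : K ≤ ρ.ker) (hK1 : K ≠ ⊥) : ¬ Group.FG (Abelianization K) := by
  intro hfg
  have h1 := core i j K (fun a ha => hA (by
      change ρ (left i j a) = ρ (left i j 1)
      rw [(MonoidHom.mem_ker).1 (hK ha), map_one, map_one]))
    (fun b hb => hB (by
      change ρ (right i j b) = ρ (right i j 1)
      rw [(MonoidHom.mem_ker).1 (hK hb), map_one, map_one])) hK1 hfg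
  have h2 : (K ⊔ (mid i j).range).index ≠ 0 := Subgroup.index_ne_zero_of_finite
  have h3 : K ⊔ (mid i j).range ≤ (ρ.comp (mid i j)).range.comap ρ := by
    refine sup_le (fun k hk => ?_) ?_
    · rw [Subgroup.mem_comap, (MonoidHom.mem_ker).1 (hK hk)]
      exact one_mem _
    · rintro _ ⟨c, rfl⟩
      exact ⟨c, rfl⟩
  have h4 : ((ρ.comp (mid i j)).range.comap ρ).index ≠ 0 := fun h5 =>
    h2 (Nat.eq_zero_of_zero_dvd (h5 ▸ Subgroup.index_dvd_of_le h3))
  rw [Subgroup.index_comap_of_surjective _ hρ] at h4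
  exact h4 hC

end Pool.Agent.V7H90.HK
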